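import Pool.Agent.Helper67.RG.EStmts

/-!
# E10 GOOD
-/

namespace Pool.Agent.Helper49.RG

open Pool.Agent.Helper67.RG Polynomial

theorem tau_transcendental : Transcendental ℂ tau := by
  have h1 : Transcendental ℂ (RatFunc.X : RatFunc ℂ) := by
    rw [← RatFunc.algebraMap_X]
    have := (transcendental_algebraMap_iff (R := ℂ) (S := ℂ[X]) (A := RatFunc ℂ)
      (RatFunc.algebraMap_injective ℂ) (a := X)).2 (transcendental_X ℂ)
    exact this
  exact (transcendental_algebraMap_iff (R := ℂ) (S := RatFunc ℂ) (A := Om)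
      (algebraMap (RatFunc ℂ) Om).injective (a := RatFunc.X)).2 h1

/-- The two generators of `A0`. -/
noncomputable def psi : MvPolynomial (Fin 2) ℂ →ₐ[ℂ] Om[X] :=
  MvPolynomial.aeval ![X ^ 2, C tau * X ^ 2]

theorem psi_eq (P : MvPolynomial (Fin 2) ℂ) :
    psi P = ∑ m ∈ P.support, monomial (2 * (m 0 + m 1))
      (algebraMap ℂ Om (P.coeff m) * tau ^ m 1) := by
  rw [psi, MvPolynomial.aeval_def, MvPolynomial.eval₂_eq']
  refine Finset.sum_congr rfl fun m _ => ?_
  have : algebraMap ℂ Om[X] (MvPolynomial.coeff m P) = C (algebraMap ℂ Om (P.coeff m)) := rfl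
  rw [this]
  simp only [Fin.prod_univ_two, Matrix.cons_val_zero, Matrix.cons_val_one]
  rw [← C_mul_X_pow_eq_monomial, mul_pow, ← C_pow, C_mul]
  show _ = C (algebraMap ℂ Om (P.coeff m)) * C (tau ^ m 1) * X ^ (2 * (m 0 + m 1))
  ring

theorem psi_injective : Function.Injective psi := by
  rw [injective_iff_map_eq_zero]
  intro P hP
  ext m
  rw [MvPolynomial.coeff_zero]
  have h1 : (psi P).coeff (2 * (m 0 + m 1)) = 0 := by rw [hP, coeff_zero]
  rw [psi_eq, finsetSum_coeff] at h1
  set R : ℂ[X] := ∑ k ∈ P.support.filter (fun k => k 0 + k 1 = m 0 + m 1),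
    monomial (k 1) (P.coeff k) with hR
  have h2 : aeval tau R = 0 := by
    rw [hR, map_sum, ← h1, Finset.sum_filter]
    refine Finset.sum_congr rfl fun k _ => ?_
    rw [coeff_monomial]
    by_cases hk : k 0 + k 1 = m 0 + m 1
    · rw [if_pos hk, if_pos (by rw [hk]), aeval_monomial]
    · rw [if_neg hk, if_neg (by omega)]
  have h3 : R = 0 := by
    by_contra hne
    exact tau_transcendental ⟨R, hne, h2⟩
  by_contra hm
  have hms : m ∈ P.support.filter (fun k => k 0 + k 1 = m 0 + m 1) := by
    rw [Finset.mem_filter, MvPolynomial.mem_support_iff]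
    exact ⟨hm, rfl⟩
  have h4 : R.coeff (m 1) = P.coeff m := by
    rw [hR, finsetSum_coeff, Finset.sum_eq_single m]
    · rw [coeff_monomial, if_pos rfl]
    · intro k hk hkm
      rw [coeff_monomial, if_neg]
      intro h5
      apply hkm
      have h6 := (Finset.mem_filter.1 hk).2
      ext i
      fin_cases i
      · show k 0 = m 0
        omega
      · exact h5
    · intro h; exact absurd hms h
  rw [h3, coeff_zero] at h4
  exact hm h4.symm

theorem psi_range : psi.range = A0 := by
  rw [psi, ← Algebra.adjoin_range_eq_range_aeval, A0]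
  congr 1
  ext z
  simp [or_comm]


theorem good_abs {A B : Type} [CommRing A] [IsDomain A] [UniqueFactorizationMonoid A]
    [CommRing B] [IsDomain B] [Algebra A B] [Algebra.IsIntegral A B] [IsIntegrallyClosed B]
    (hinj : Function.Injective (algebraMap A B)) (u v : A) (hu : u ≠ 0) (hv : v ≠ 0)
    (huv : IsRelPrime u v) (a c : B) (hc : c ≠ 0)
    (h1 : c ∣ a * algebraMap A B u) (h2 : c ∣ a * algebraMap A B v) : c ∣ a := by
  let K := FractionRing A
  let L := FractionRing B
  have : FaithfulSMul A B := (faithfulSMul_iff_algebraMap_injective A B).2 hinj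
  let : Algebra K L := FractionRing.liftAlgebra _ _
  have hcL : algebraMap B L c ≠ 0 := by
    intro h
    exact hc ((IsFractionRing.injective B L) (by rw [h, map_zero]))
  set z : L := algebraMap B L a / algebraMap B L c with hz
  have key : ∀ w : A, c ∣ a * algebraMap A B w → IsIntegral A (algebraMap A L w * z) := by
    intro w hw
    obtain ⟨e, he⟩ := hw
    have : algebraMap A L w * z = algebraMap B L e := by
      rw [hz, IsScalarTower.algebraMap_apply A B L, mul_div_assoc', div_eq_iff hcL, ← map_mul,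
        ← map_mul, mul_comm _ a, he, mul_comm c e]
    rw [this]
    exact (Algebra.IsIntegral.isIntegral e).map (IsScalarTower.toAlgHom A B L)
  have hAL : Function.Injective (algebraMap A L) := by
    rw [IsScalarTower.algebraMap_eq A B L]
    exact (IsFractionRing.injective B L).comp hinj
  have hzK : IsIntegral K z := by
    have h3 := key u h1
    have h4 : IsIntegral K (algebraMap A L u * z) := h3.tower_top
    have h5 : algebraMap A L u ≠ 0 := by
      intro h; exact hu (hAL (by rw [h, map_zero]))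
    have h6 : z = algebraMap K L ((algebraMap A K u)⁻¹) * (algebraMap A L u * z) := by
      rw [map_inv₀, ← IsScalarTower.algebraMap_apply A K L, ← mul_assoc, inv_mul_cancel₀ h5,
        one_mul]
    rw [h6]
    exact isIntegral_algebraMap.mul h4
  have hcoef : ∀ w : A, w ≠ 0 → c ∣ a * algebraMap A B w → ∀ j, ∃ p : A,
      algebraMap A K p = (minpoly K z).coeff j * algebraMap A K w ^ ((minpoly K z).natDegree - j) := by
    intro w hw hcw j
    have h3 := key w hcw
    have h4 : minpoly K (algebraMap A L w * z) = (minpoly K z).scaleRoots (algebraMap A K w) := by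
      have h5 : algebraMap A K w ≠ 0 := by
        intro h; exact hw ((IsFractionRing.injective A K) (by rw [h, map_zero]))
      have := IsIntegrallyClosed.minpoly_smul (R := K) (S := L) h5 hzK
      rwa [Algebra.smul_def, ← IsScalarTower.algebraMap_apply A K L] at this
    have h6 := minpoly.isIntegrallyClosed_eq_field_fractions' K h3
    refine ⟨(minpoly A (algebraMap A L w * z)).coeff j, ?_⟩
    rw [← coeff_map, ← h6, h4, coeff_scaleRoots]
  have hlift : minpoly K z ∈ Polynomial.lifts (algebraMap A K) := by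
    rw [Polynomial.lifts_iff_coeff_lifts]
    intro j
    obtain ⟨p, hp⟩ := hcoef u hu h1 j
    obtain ⟨q, hq⟩ := hcoef v hv h2 j
    set k := (minpoly K z).natDegree - j with hk
    have h3 : p * v ^ k = q * u ^ k := by
      apply IsFractionRing.injective A K
      rw [map_mul, map_mul, map_pow, map_pow, hp, hq]
      ring
    have h4 : u ^ k ∣ p := by
      have h5 : u ^ k ∣ p * v ^ k := ⟨q, by rw [h3]; ring⟩
      exact (huv.pow).dvd_of_dvd_mul_right h5
    obtain ⟨e, he⟩ := h4
    refine ⟨e, ?_⟩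
    have h5 : algebraMap A K u ≠ 0 := by
      intro h; exact hu ((IsFractionRing.injective A K) (by rw [h, map_zero]))
    have h6 : algebraMap A K u ^ k ≠ 0 := pow_ne_zero _ h5
    apply mul_right_cancel₀ h6
    rw [← hp, he, map_mul, map_pow]
    ring
  have hzA : IsIntegral A z := by
    obtain ⟨m, hm1, -, hm3⟩ := Polynomial.lifts_and_natDegree_eq_and_monic hlift (minpoly.monic hzK)
    refine ⟨m, hm3, ?_⟩
    have := minpoly.aeval K z
    rw [← hm1, aeval_map_algebraMap] at this
    exact this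
  have hzB : IsIntegral B z := hzA.tower_top
  obtain ⟨y, hy⟩ := (IsIntegrallyClosed.isIntegral_iff (R := B) (K := L)).1 hzB
  refine ⟨y, ?_⟩
  apply IsFractionRing.injective B L
  rw [map_mul, hy, hz, mul_div_cancel₀ _ hcL]

theorem mem_B_of_A0 {ν : ℕ} {D : Pell ν} (T : Tower D) (z : Om[X]) (hz : z ∈ A0)
    (n : ℕ) (hn : n % 2 = 0) (w : Om) (hw : w ∈ T.E 0) (e : z = monomial n w) : z ∈ T.B := by
  refine ⟨isIntegral_algebraMap (R := A0) (x := ⟨z, hz⟩), fun m => ?_⟩
  rw [e, coeff_monomial]
  split_ifs with h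
  · subst h
    rwa [T.E_congr (m := n) (n := 0) (by omega)]
  · exact Submodule.zero_mem _

theorem st_GOOD (hNORM : ST_NORM) : ST_GOOD := by
  intro ν D T a c K hc h0 h1
  have hnorm := hNORM ν D T
  -- the generators of `A0` inside `B`
  have hs : (X ^ 2 : Om[X]) ∈ T.B :=
    mem_B_of_A0 T _ Tower.s_mem 2 rfl 1 T.one_mem_E (by rw [X_pow_eq_monomial])
  have ht : (C tau * X ^ 2 : Om[X]) ∈ T.B :=
    mem_B_of_A0 T _ Tower.t_mem 2 rfl tau (T.alg_mem_E RatFunc.X) (by rw [C_mul_X_pow_eq_monomial])
  let sB : T.B := ⟨_, hs⟩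
  let tB : T.B := ⟨_, ht⟩
  let A := MvPolynomial (Fin 2) ℂ
  let φ : A →ₐ[ℂ] T.B := MvPolynomial.aeval ![sB, tB]
  have hφ : ∀ P, ((φ P : T.B) : Om[X]) = psi P := by
    intro P
    have : (T.B.val.comp φ) = psi := by
      apply MvPolynomial.algHom_ext
      intro i
      fin_cases i
      · simp [φ, psi, sB]
      · simp [φ, psi, tB]
    rw [← this]; rfl
  let : Algebra A T.B := φ.toRingHom.toAlgebra
  have halg : ∀ P : A, algebraMap A T.B P = φ P := fun P => rfl
  have hinj : Function.Injective (algebraMap A T.B) := by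
    intro P Q h
    apply psi_injective
    rw [← hφ, ← hφ, ← halg, ← halg, h]
  have hint : Algebra.IsIntegral A T.B := by
    refine ⟨fun P => ?_⟩
    obtain ⟨p, hp1, hp2⟩ := P.2.1
    let θ : A →+* A0 := (psi.toRingHom).codRestrict A0.toSubring
      (fun x => by rw [← psi_range]; exact ⟨x, rfl⟩)
    have hθ : Function.Surjective θ := by
      rintro ⟨x, hx⟩
      have hx' := hx
      rw [← psi_range] at hx'
      obtain ⟨y, hy⟩ := hx'
      exact ⟨y, Subtype.ext hy⟩
    have hlift : p ∈ Polynomial.lifts θ := by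
      rw [Polynomial.lifts_iff_coeff_lifts]
      intro j
      exact hθ _
    obtain ⟨m, hm1, -, hm3⟩ := Polynomial.lifts_and_natDegree_eq_and_monic hlift hp1
    refine ⟨m, hm3, ?_⟩
    apply Subtype.ext
    rw [← hm1, eval₂_map] at hp2
    have h3 : ((eval₂ (algebraMap A T.B) P m : T.B) : Om[X])
        = eval₂ ((T.B.val : T.B →+* Om[X]).comp (algebraMap A T.B)) (P : Om[X]) m :=
      hom_eval₂ m (algebraMap A T.B) (T.B.val : T.B →+* Om[X]) P
    rw [h3]
    have h4 : ((T.B.val : T.B →+* Om[X]).comp (algebraMap A T.B))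
        = (algebraMap A0 Om[X]).comp θ := by
      refine RingHom.ext fun x => ?_
      exact hφ x
    rw [h4, hp2]
    rfl
  let l : Fin 12 → A := fun i => MvPolynomial.X 1 - MvPolynomial.C (D.lam i) * MvPolynomial.X 0
  have hl : ∀ i, algebraMap A T.B (l i) = T.x i ^ 2 := by
    intro i
    rw [halg]
    apply Subtype.ext
    have e : T.xx i ^ 2 = C tau * X ^ 2 - (D.lam i) • (X ^ 2 : Om[X]) := by
      rw [Tower.xx, ← C_mul_X_pow_eq_monomial, pow_one, mul_pow, ← C_pow, T.hr i, Algebra.smul_def]
      have : algebraMap ℂ Om[X] (D.lam i) = C (algebraMap ℂ Om (D.lam i)) := rfl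
      rw [this, C_sub]
      ring
    rw [SubmonoidClass.coe_pow]
    show _ = T.xx i ^ 2
    rw [e, hφ]
    simp [l, psi, Algebra.smul_def]
  have hne01 : D.lam 0 ≠ D.lam 1 := fun h => by
    have := D.inj h
    exact absurd this (by decide)
  have hlne : ∀ i, l i ≠ 0 := by
    intro i h
    have h3 := congrArg (MvPolynomial.eval ![0, 1]) h
    simp [l] at h3
  have hunit : ∀ z : ℂ, z ≠ 0 → IsUnit (MvPolynomial.C z : A) := fun z hz =>
    (IsUnit.mk0 z hz).map MvPolynomial.C
  have hrel : IsRelPrime (l 0) (l 1) := by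
    intro d hd0 hd1
    have h3 : d ∣ MvPolynomial.X 0 := by
      have : l 1 - l 0 = MvPolynomial.C (D.lam 0 - D.lam 1) * MvPolynomial.X 0 := by
        simp only [l, MvPolynomial.C_sub]; ring
      have h4 := dvd_sub hd1 hd0
      rw [this] at h4
      exact (hunit _ (sub_ne_zero.2 hne01)).dvd_mul_left.1 h4
    have h5 : d ∣ MvPolynomial.X 1 := by
      have h6 : MvPolynomial.X 1 = l 0 + MvPolynomial.C (D.lam 0) * MvPolynomial.X 0 := by
        simp only [l]; ring
      rw [h6]
      exact dvd_add hd0 (h3.mul_left _)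
    have h6 : IsRelPrime (MvPolynomial.X 0 : A) (MvPolynomial.X 1) := by
      rw [(MvPolynomial.X_prime (R := ℂ) (i := (0 : Fin 2))).irreducible.isRelPrime_iff_not_dvd]
      rw [MvPolynomial.X_dvd_X]
      decide
    exact h6 h3 h5
  have hg := good_abs hinj (l 0 ^ K) (l 1 ^ K) (pow_ne_zero _ (hlne 0)) (pow_ne_zero _ (hlne 1))
    hrel.pow a c hc ?_ ?_
  · exact hg
  · rw [map_pow, hl, ← pow_mul]
    obtain ⟨e, he⟩ := h0
    refine ⟨e * T.x 0 ^ K, ?_⟩
    rw [two_mul, pow_add, ← mul_assoc, he]; ring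
  · rw [map_pow, hl, ← pow_mul]
    obtain ⟨e, he⟩ := h1
    refine ⟨e * T.x 1 ^ K, ?_⟩
    rw [two_mul, pow_add, ← mul_assoc, he]; ring

end Pool.Agent.Helper49.RG
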