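import Pool.Agent.Helper67.RG.GStmts

/-!
# G7 PTS: roots at infinitely many closed points
-/

namespace Pool.Agent.Helper49.RG

open Pool.Agent.Helper67.RG MvPolynomial

theorem pts_expand {A R : Type} [CommRing A] [CommRing R] [Algebra A R] {K : ℕ} (a : Fin K → A)
    (g : Fin K → R) (V : R) (ν : ℕ) :
    (∑ i, a i • g i) ^ ν * V
      = ∑ s : Fin ν → Fin K, (∏ j, a (s j)) • ((∏ j, g (s j)) * V) := by
  rw [Fintype.sum_pow, Finset.sum_mul]
  refine Finset.sum_congr rfl fun s _ => ?_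
  simp only [Algebra.smul_def, Finset.prod_mul_distrib, map_prod]
  ring

theorem pts_mem {A R : Type} [CommRing A] [CommRing R] [Algebra A R] (gr : ℕ → Submodule A R)
    [GradedAlgebra gr] {K : ℕ} {m ν t : ℕ} (g : Fin K → R) (hg : ∀ i, g i ∈ gr m) (V : R)
    (hV : V ∈ gr t) (s : Fin ν → Fin K) : (∏ j, g (s j)) * V ∈ gr (m * ν + t) := by
  have h1 : (∏ j, g (s j)) ∈ gr (∑ _j : Fin ν, m) :=
    SetLike.prod_mem_graded gr (fun _ => m) (fun j => g (s j)) (fun j _ => hg (s j))
  have h2 := SetLike.mul_mem_graded h1 hV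
  simpa [mul_comm] using h2

/-- A functional maps `I • N` to `I`. -/
theorem pts_functional {A R : Type} [CommRing A] [CommRing R] [Algebra A R] (N : Submodule A R)
    (l : N →ₗ[A] A) (I : Ideal A) (z : N) (hz : (z : R) ∈ I • N) : l z ∈ I := by
  have h : ∀ x : R, x ∈ I • N → ∃ hx : x ∈ N, l ⟨x, hx⟩ ∈ I := by
    intro x hx
    refine Submodule.smul_induction_on hx (fun a ha n hn => ?_) (fun x y hx hy => ?_)
    · refine ⟨N.smul_mem a hn, ?_⟩
      have : (⟨a • n, N.smul_mem a hn⟩ : N) = a • ⟨n, hn⟩ := rfl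
      rw [this, map_smul, smul_eq_mul]
      exact I.mul_mem_right _ ha
    · obtain ⟨h1, h2⟩ := hx
      obtain ⟨h3, h4⟩ := hy
      refine ⟨N.add_mem h1 h3, ?_⟩
      have : (⟨x + y, N.add_mem h1 h3⟩ : N) = ⟨x, h1⟩ + ⟨y, h3⟩ := rfl
      rw [this, map_add]
      exact I.add_mem h2 h4
  obtain ⟨h1, h2⟩ := h _ hz
  exact h2

/-- The polynomial system. -/
noncomputable def ptsE {A : Type} [CommRing A] {K ν : ℕ} (c : (Fin ν → Fin K) → A) (τ : A) :
    MvPolynomial (Fin K) A :=
  ∑ s : Fin ν → Fin K, C (c s) * ∏ j, X (s j) - C τ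

theorem ptsE_eval {A B : Type} [CommRing A] [CommRing B] (φ : A →+* B) {K ν : ℕ}
    (c : (Fin ν → Fin K) → A) (τ : A) (x : Fin K → B) :
    eval₂Hom φ x (ptsE c τ) = ∑ s : Fin ν → Fin K, φ (c s) * ∏ j, x (s j) - φ τ := by
  simp [ptsE, map_sub, map_sum, map_mul, map_prod]

theorem st_PTS (hEXT : ST_EXT) (hINF : ST_INF) : ST_PTS := by
  intro g d A _ _ _ _ F b0 q hq hlt f hf m ν M hm V T t hV hM hT hroot hν
  have := hq
  have hM0 : F.n0 ≤ M := by
    have : m * 1 ≤ m * ν := Nat.mul_le_mul_left _ hν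
    omega
  have := F.fin M hM0
  have := F.proj M hM0
  have := F.fin m hm
  obtain ⟨h, ρ, ι, -, -, hρι⟩ :=
    Module.Finite.exists_comp_eq_id_of_projective A (F.gr M)
  obtain ⟨K, gg, hgg⟩ := Module.Finite.exists_fin (R := A) (M := F.gr m)
  set G : Fin K → F.R := fun i => (gg i : F.R) with hG
  have hGm : ∀ i, G i ∈ F.gr m := fun i => (gg i).2
  have hspan : ∀ W ∈ F.gr m, ∃ a : Fin K → A, W = ∑ i, a i • G i := by
    intro W hW
    have : (⟨W, hW⟩ : F.gr m) ∈ Submodule.span A (Set.range gg) := by rw [hgg]; trivial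
    obtain ⟨a, ha⟩ := (Submodule.mem_span_range_iff_exists_fun A).1 this
    refine ⟨a, ?_⟩
    have := congrArg (fun z : F.gr m => (z : F.R)) ha
    simpa [G] using this.symm
  have hcs : ∀ s : Fin ν → Fin K, (∏ j, G (s j)) * V ∈ F.gr M := by
    intro s
    rw [← hM]
    exact pts_mem F.gr G hGm V hV s
  set c : Fin h → (Fin ν → Fin K) → A := fun l s => ι ⟨_, hcs s⟩ l with hc
  set τ : Fin h → A := fun l => ι ⟨T, hT⟩ l with hτ
  -- the value of the system
  have hval : ∀ (a : Fin K → A), ∃ hmem : (∑ i, a i • G i) ^ ν * V - T ∈ F.gr M, ∀ l,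
      ι ⟨_, hmem⟩ l = ∑ s : Fin ν → Fin K, c l s * ∏ j, a (s j) - τ l := by
    intro a
    have hmem1 : ∑ s : Fin ν → Fin K, (∏ j, a (s j)) • ((∏ j, G (s j)) * V) ∈ F.gr M :=
      Submodule.sum_mem _ fun s _ => Submodule.smul_mem _ _ (hcs s)
    have hmem : (∑ i, a i • G i) ^ ν * V - T ∈ F.gr M := by
      rw [pts_expand]
      exact Submodule.sub_mem _ hmem1 hT
    refine ⟨hmem, fun l => ?_⟩
    have : (⟨_, hmem⟩ : F.gr M)
        = (∑ s : Fin ν → Fin K, (∏ j, a (s j)) • (⟨_, hcs s⟩ : F.gr M)) - ⟨T, hT⟩ := by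
      apply Subtype.ext
      rw [Submodule.coe_sub, Submodule.coe_sum]
      simp only [Submodule.coe_smul]
      rw [pts_expand]
    rw [this, map_sub, map_sum, Pi.sub_apply, Finset.sum_apply]
    simp only [map_smul, Pi.smul_apply, smul_eq_mul, c, τ]
    congr 1
    exact Finset.sum_congr rfl fun s _ => mul_comm _ _
  -- the ring `O`
  let A' := A ⧸ q
  let mk : A →+* A' := Ideal.Quotient.mk q
  let E : Fin h → MvPolynomial (Fin K) A' := fun l => ptsE (fun s => mk (c l s)) (mk (τ l))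
  let I : Ideal (MvPolynomial (Fin K) A') := Ideal.span (Set.range E)
  let O := MvPolynomial (Fin K) A' ⧸ I
  have : Algebra.FiniteType A' O :=
    Algebra.FiniteType.of_surjective (Ideal.Quotient.mkₐ A' I) (Ideal.Quotient.mkₐ_surjective A' I)
  have : Algebra.FiniteType ℂ A' :=
    Algebra.FiniteType.of_surjective (Ideal.Quotient.mkₐ ℂ q) (Ideal.Quotient.mkₐ_surjective ℂ q)
  have : IsNoetherianRing A' := Algebra.FiniteType.isNoetherianRing ℂ A'
  have hqle : q ≤ RingHom.ker b0 := hlt.le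
  -- injectivity
  have hinj : Function.Injective (algebraMap A' O) := by
    rw [injective_iff_map_eq_zero]
    intro a' ha'
    have hCa : (C a' : MvPolynomial (Fin K) A') ∈ I := by
      have : algebraMap A' O a' = Ideal.Quotient.mk I (C a') := rfl
      rw [this] at ha'
      exact Ideal.Quotient.eq_zero_iff_mem.1 ha'
    obtain ⟨a, rfl⟩ := Ideal.Quotient.mk_surjective a'
    set m0' : Ideal A' := (RingHom.ker b0).map mk with hm0'
    have hne : m0' ≠ ⊤ := by
      intro htop
      have h1 : (1 : A') ∈ m0' := by rw [htop]; trivial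
      obtain ⟨x, hx, hx1⟩ := (Ideal.mem_map_iff_of_surjective mk
        Ideal.Quotient.mk_surjective).1 h1
      have h2 : x - 1 ∈ q := by
        rw [← Ideal.Quotient.eq_zero_iff_mem]
        show mk (x - 1) = 0
        rw [map_sub, hx1, map_one, sub_self]
      have h3 : b0 (x - 1) = 0 := hqle h2
      have h4 : b0 x = 0 := hx
      rw [map_sub, h4, map_one] at h3
      norm_num at h3
    have hmem : ∀ k : ℕ, mk a ∈ m0' ^ (k + 1) := by
      intro k
      obtain ⟨W, hW, hWT⟩ := hroot k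
      obtain ⟨w, rfl⟩ := hspan W hW
      obtain ⟨hmem, hl⟩ := hval w
      set Q : Ideal A := q ⊔ RingHom.ker b0 ^ (k + 1) with hQ
      let φ : A' →+* A ⧸ Q := Ideal.Quotient.factor le_sup_left
      have hφ : ∀ x, φ (mk x) = Ideal.Quotient.mk Q x := fun x => rfl
      let e : MvPolynomial (Fin K) A' →+* A ⧸ Q :=
        eval₂Hom φ (fun i => Ideal.Quotient.mk Q (w i))
      have hE : ∀ l, e (E l) = 0 := by
        intro l
        have h1 : e (E l) = ∑ s : Fin ν → Fin K, φ (mk (c l s)) *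
            ∏ j, Ideal.Quotient.mk Q (w (s j)) - φ (mk (τ l)) := ptsE_eval _ _ _ _
        have h2 : e (E l) = Ideal.Quotient.mk Q
            (∑ s : Fin ν → Fin K, c l s * ∏ j, w (s j) - τ l) := by
          rw [h1]
          simp only [hφ, map_sub, map_sum, map_mul, map_prod]
        rw [h2, ← hl l, Ideal.Quotient.eq_zero_iff_mem]
        exact pts_functional (F.gr M) ((LinearMap.proj l).comp ι) Q ⟨_, hmem⟩ hWT
      have hIe : I ≤ RingHom.ker e := by
        rw [Ideal.span_le]
        rintro _ ⟨l, rfl⟩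
        exact hE l
      have h3 : e (C (mk a)) = 0 := hIe hCa
      have h4 : e (C (mk a)) = Ideal.Quotient.mk Q a := by
        show eval₂Hom φ _ (C (mk a)) = _
        rw [coe_eval₂Hom, eval₂_C, hφ]
      rw [h4, Ideal.Quotient.eq_zero_iff_mem, hQ, Submodule.mem_sup] at h3
      obtain ⟨x, hx, y, hy, rfl⟩ := h3
      have h5 : mk x = 0 := Ideal.Quotient.eq_zero_iff_mem.2 hx
      rw [map_add, h5, zero_add, hm0', ← Ideal.map_pow]
      exact Ideal.mem_map_of_mem mk hy
    have hbot := Ideal.iInf_pow_eq_bot_of_isDomain m0' hne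
    have : mk a ∈ ⨅ i, m0' ^ i := by
      rw [Ideal.mem_iInf]
      intro i
      exact Ideal.pow_le_pow_right (Nat.le_succ i) (hmem i)
    rw [hbot] at this
    exact this
  obtain ⟨h', hh', hβ⟩ := hEXT A' O hinj
  have hnf : ¬ IsField A' := by
    intro hfield
    have hmax : q.IsMaximal := Ideal.Quotient.maximal_of_isField q hfield
    have : RingHom.ker b0 = ⊤ := hmax.1.2 _ hlt
    have h1 : (1 : A) ∈ RingHom.ker b0 := by rw [this]; trivial
    have h2 : b0 1 = 0 := h1
    simp at h2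
  have hf' : mk f ≠ 0 := by
    intro h0
    have : f ∈ q := Ideal.Quotient.eq_zero_iff_mem.1 h0
    exact hf (hqle this)
  have hinf := hINF A' hnf (h' * mk f) (mul_ne_zero hh' hf')
  let pull : (A' →ₐ[ℂ] ℂ) → (A →ₐ[ℂ] ℂ) := fun b' => b'.comp (Ideal.Quotient.mkₐ ℂ q)
  have hpull : Function.Injective pull := by
    intro b1 b2 h12
    refine Ideal.Quotient.algHom_ext _ ?_
    exact h12
  refine (hinf.image (Function.Injective.injOn hpull)).mono ?_
  rintro _ ⟨b', hb', rfl⟩
  have hb'' : b' (h' * mk f) ≠ 0 := hb'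
  rw [map_mul] at hb''
  obtain ⟨β, hβ'⟩ := hβ b' (left_ne_zero_of_mul hb'')
  set b := pull b' with hbdef
  have hbmk : ∀ a, b a = b' (mk a) := fun a => rfl
  refine ⟨?_, ?_, ?_⟩
  · intro x hx
    show b x = 0
    rw [hbmk, show mk x = 0 from Ideal.Quotient.eq_zero_iff_mem.2 hx, map_zero]
  · rw [hbmk]; exact right_ne_zero_of_mul hb''
  · set ω : Fin K → ℂ := fun i => β (Ideal.Quotient.mk I (X i)) with hω
    set w : Fin K → A := fun i => algebraMap ℂ A (ω i) with hw
    obtain ⟨hmem, hl⟩ := hval w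
    have hbw : ∀ i, b (w i) = ω i := fun i => by simp [w]
    have hzero : ∀ l, b (ι ⟨_, hmem⟩ l) = 0 := by
      intro l
      rw [hl l]
      have h0 : E l ∈ I := Ideal.subset_span (Set.mem_range_self l)
      have h1 : β (Ideal.Quotient.mk I (E l)) = 0 := by
        rw [Ideal.Quotient.eq_zero_iff_mem.2 h0, map_zero]
      have h2 : β (Ideal.Quotient.mk I (E l))
          = eval₂Hom (β.comp (algebraMap A' O)) ω (E l) := by
        have : (β.comp (Ideal.Quotient.mk I)) = eval₂Hom (β.comp (algebraMap A' O)) ω := by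
          refine MvPolynomial.ringHom_ext (fun x => ?_) (fun i => ?_)
          · rw [coe_eval₂Hom, eval₂_C]; rfl
          · rw [coe_eval₂Hom, eval₂_X]; rfl
        rw [← this]; rfl
      have h3 : eval₂Hom (β.comp (algebraMap A' O)) ω (E l)
          = ∑ s : Fin ν → Fin K, (β.comp (algebraMap A' O)) (mk (c l s)) * ∏ j, ω (s j)
            - (β.comp (algebraMap A' O)) (mk (τ l)) := ptsE_eval _ _ _ _
      have h4 : ∀ a, (β.comp (algebraMap A' O)) (mk a) = b a := fun a => by
        rw [RingHom.comp_apply, hβ', hbmk]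
      simp only [h4] at h3
      rw [map_sub, map_sum]
      simp only [map_mul, map_prod, hbw]
      rw [← h3, ← h2, h1]
    set z : F.gr M := ⟨_, hmem⟩ with hz
    have hzsp : F.sp b (z : F.R) = 0 := by
      have h1 : z = ρ (ι z) := by
        have := congrArg (fun φ : F.gr M →ₗ[A] F.gr M => φ z) hρι
        simpa using this.symm
      have h2 : ι z = ∑ l, (ι z l) • (Pi.single l (1 : A)) := by
        conv_lhs => rw [← Finset.univ_sum_single (ι z)]
        refine Finset.sum_congr rfl fun l _ => ?_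
        rw [← Pi.single_smul, smul_eq_mul, mul_one]
      rw [h1, h2, map_sum, Submodule.coe_sum, map_sum]
      refine Finset.sum_eq_zero fun l _ => ?_
      rw [map_smul, Submodule.coe_smul, Algebra.smul_def, map_mul, F.sp_alg, hzero l, map_zero,
        zero_mul]
    refine ⟨F.sp b (∑ i, w i • G i), F.sp_gr b m _
      (Submodule.sum_mem _ fun i _ => Submodule.smul_mem _ _ (hGm i)), ?_⟩
    have h5 : F.sp b ((∑ i, w i • G i) ^ ν * V - T) = 0 := hzsp
    rw [map_sub, map_mul, map_pow] at h5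
    exact sub_eq_zero.1 h5

end Pool.Agent.Helper49.RG
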